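import Pool.Agent.R951.FH.Stm

/-!
# MP_15ac55_ag, piece FH-RC: relation counts
-/

set_option autoImplicit false

namespace Pool.Agent.R392.FH

open MvPolynomial Pool.Agent.R951.FH

section basics

variable {G : Type} [CommRing G] [Algebra ℚ G] (D : FHD G)

lemma size_le (s : T) : size s ≤ 2 * N s := by
  unfold size N
  rw [← Multiset.sum_map_mul_left]
  exact Multiset.sum_map_le_sum_map _ _ fun k _ => by omega

lemma gp_one : (1 : G) ∈ D.gp 0 := by
  intro s hs
  rw [D.one] at hs
  unfold ind at hs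
  split_ifs at hs with h
  · rw [h]; rfl
  · exact absurd rfl hs

lemma gp_mul {a b : ℕ} {x y : G} (hx : x ∈ D.gp a) (hy : y ∈ D.gp b) : x * y ∈ D.gp (a + b) := by
  intro s hs
  obtain ⟨u, v, hu, hv, h, -, -⟩ := D.supp x y s hs
  rw [← h, hx u hu, hy v hv]

lemma gp_pow {a : ℕ} {x : G} (hx : x ∈ D.gp a) (n : ℕ) : x ^ n ∈ D.gp (n * a) := by
  induction n with
  | zero => rw [pow_zero, Nat.zero_mul]; exact gp_one D
  | succ n ih => rw [pow_succ, Nat.succ_mul]; exact gp_mul D ih hx

lemma gp_prod {σ : Type} (w : σ → ℕ) (h : σ → G) (hh : ∀ i, h i ∈ D.gp (w i)) (n : σ → ℕ)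
    (F : Finset σ) : ∏ i ∈ F, h i ^ n i ∈ D.gp (∑ i ∈ F, n i * w i) := by
  classical
  induction F using Finset.induction_on with
  | empty => simpa using gp_one D
  | insert a F ha ih =>
    rw [Finset.prod_insert ha, Finset.sum_insert ha]
    exact gp_mul D (gp_pow D (hh a) _) ih

lemma aeval_mem {σ : Type} (w : σ → ℕ) (h : σ → G) (hh : ∀ i, h i ∈ D.gp (w i)) {n : ℕ}
    {p : MvPolynomial σ ℚ} (hp : IsWeightedHomogeneous w p n) :
    (aeval h : MvPolynomial σ ℚ →ₐ[ℚ] G) p ∈ D.gp n := by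
  rw [aeval_def, eval₂_eq]
  refine Submodule.sum_mem _ fun u hu => ?_
  rw [← Algebra.smul_def]
  apply Submodule.smul_mem
  have h1 : Finsupp.weight w u = n := hp (mem_support_iff.1 hu)
  rw [Finsupp.weight_apply] at h1
  have h2 := gp_prod D w h hh u u.support
  have h3 : ∑ i ∈ u.support, u i * w i = n := h1
  rwa [h3] at h2

lemma e_aeval {σ : Type} (w : σ → ℕ) (h : σ → G) (hh : ∀ i, h i ∈ D.gp (w i))
    (p : MvPolynomial σ ℚ) (s : T) :
    D.e ((aeval h : MvPolynomial σ ℚ →ₐ[ℚ] G) p) s =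
      D.e ((aeval h : MvPolynomial σ ℚ →ₐ[ℚ] G) (weightedHomogeneousComponent w (N s) p)) s := by
  classical
  have hfin := weightedHomogeneousComponent_finsupp (w := w) p
  have h1 : p = ∑ j ∈ hfin.toFinset, weightedHomogeneousComponent w j p := by
    conv_lhs => rw [← sum_weightedHomogeneousComponent w p]
    exact finsum_eq_sum _ hfin
  have h2 : ∀ j, j ≠ N s → D.e ((aeval h : MvPolynomial σ ℚ →ₐ[ℚ] G)
      (weightedHomogeneousComponent w j p)) s = 0 := by
    intro j hj
    by_contra hne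
    exact hj (aeval_mem D w h hh (weightedHomogeneousComponent_isWeightedHomogeneous j p) s hne).symm
  conv_lhs => rw [h1]
  rw [map_sum, map_sum, Finset.sum_apply]
  rw [Finset.sum_eq_single (N s)]
  · intro j _ hj
    exact h2 j hj
  · intro hns
    have : weightedHomogeneousComponent w (N s) p = 0 := by
      by_contra hne
      exact hns (hfin.mem_toFinset.2 hne)
    rw [this]
    simp

variable {A : Type} [CommRing A] [Algebra ℚ A] (ρ : G →ₐ[ℚ] A) (d : ℕ)
  (hρ : ∀ x, ρ x = 0 ↔ ∀ s, size s ≤ d → D.e x s = 0)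

include hρ in
lemma rho_comp {σ : Type} (w : σ → ℕ) (h : σ → G) (hh : ∀ i, h i ∈ D.gp (w i))
    (p : MvPolynomial σ ℚ) (hp : ρ ((aeval h : MvPolynomial σ ℚ →ₐ[ℚ] G) p) = 0) (j : ℕ) :
    ρ ((aeval h : MvPolynomial σ ℚ →ₐ[ℚ] G) (weightedHomogeneousComponent w j p)) = 0 := by
  rw [hρ] at hp ⊢
  intro s hs
  by_cases hj : N s = j
  · rw [← hj, ← e_aeval D w h hh]
    exact hp s hs
  · by_contra hne
    exact hj (aeval_mem D w h hh (weightedHomogeneousComponent_isWeightedHomogeneous j p) s hne)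

include hρ in
lemma mem_J (n : ℕ) (x : G) : x ∈ D.J d n ↔ x ∈ D.gp n ∧ ρ x = 0 := by
  rw [hρ]
  constructor
  · intro h
    refine ⟨fun s hs => (h s hs).1, fun s hs => ?_⟩
    by_contra hne
    exact absurd (h s hne).2 (not_lt.2 hs)
  · rintro ⟨h1, h2⟩ s hs
    refine ⟨h1 s hs, ?_⟩
    by_contra hne
    exact hs (h2 s (not_lt.1 hne))

include hρ in
lemma small_zero {n : ℕ} (hn : 2 * n ≤ d) {x : G} (hx : x ∈ D.gp n) (h0 : ρ x = 0) : x = 0 := by
  rw [hρ] at h0
  apply D.e.injective
  rw [map_zero]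
  funext s
  by_contra hne
  have h1 := hx s hne
  have h2 := size_le s
  exact hne (h0 s (by omega))

include hρ in
lemma rho_const (q : ℚ) (h : ρ (algebraMap ℚ G q) = 0) : q = 0 := by
  rw [hρ] at h
  have h1 := h 0 (by simp [size])
  rw [Algebra.algebraMap_eq_smul_one, map_smul, D.one] at h1
  simpa [ind] using h1

lemma c_mem (i : ℕ) : D.c i ∈ D.gp (i + 1) := by
  intro s hs
  unfold FHD.c at hs
  rw [LinearEquiv.apply_symm_apply] at hs
  unfold ind at hs
  split_ifs at hs with h
  · rw [h]; simp [N]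
  · exact absurd rfl hs

end basics

lemma rename_hom {m n : ℕ} {p : MvPolynomial (Fin m) ℚ} (hp : IsWeightedHomogeneous wt p n) :
    IsWeightedHomogeneous wi (rename (fun i : Fin m => (i : ℕ)) p) n := by
  intro u hu
  obtain ⟨v, hv, hv2⟩ := coeff_rename_ne_zero _ _ _ hu
  have h1 := hp hv2
  rw [← hv, ← h1, Finsupp.weight_apply, Finsupp.weight_apply, Finsupp.sum_mapDomain_index
    (by simp) (by intro b m1 m2; rw [add_smul])]
  rfl

/-- A homogeneous polynomial of positive weight lies in the span of the products `X i * q`. -/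
lemma pos_decomp (j : ℕ) (hj : 1 ≤ j) (q : MvPolynomial ℕ ℚ) (hq : IsWeightedHomogeneous wi q j) :
    q ∈ Submodule.span ℚ {z | ∃ (i : ℕ) (y : MvPolynomial ℕ ℚ), i < j ∧
      IsWeightedHomogeneous wi y (j - 1 - i) ∧ z = X i * y} := by
  rw [q.as_sum]
  refine Submodule.sum_mem _ fun u hu => ?_
  have h1 : Finsupp.weight wi u = j := hq (mem_support_iff.1 hu)
  have h2 : u ≠ 0 := by
    rintro rfl
    simp at h1
    omega
  obtain ⟨i, hi⟩ := Finsupp.support_nonempty_iff.2 h2
  have hi0 : u i ≠ 0 := Finsupp.mem_support_iff.1 hi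
  set v : ℕ →₀ ℕ := u - Finsupp.single i 1 with hv
  have h3 : u = Finsupp.single i 1 + v := by
    ext k
    simp only [hv, Finsupp.add_apply, Finsupp.tsub_apply]
    by_cases hk : i = k
    · subst hk
      simp only [Finsupp.single_eq_same]
      omega
    · simp [Finsupp.single_eq_of_ne (Ne.symm hk)]
  have h4 : (i + 1) + Finsupp.weight wi v = j := by
    rw [h3, map_add, Finsupp.weight_single] at h1
    simpa [wi] using h1
  apply Submodule.subset_span
  refine ⟨i, monomial v (coeff u q), by omega, ?_, ?_⟩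
  · apply isWeightedHomogeneous_monomial
    omega
  · conv_lhs => rw [h3]
    rw [X, monomial_mul, one_mul]
    rw [← h3]

theorem rc_aux (hBIJ : S_BIJ) (hPRES : S_PRES2) (G : Type) [CommRing G] [Algebra ℚ G] (D : FHD G)
    (A : Type) [CommRing A] [Algebra ℚ A] (ρ : G →ₐ[ℚ] A) (d : ℕ)
    (hρ : ∀ x, ρ x = 0 ↔ ∀ s, size s ≤ d → D.e x s = 0) (m : ℕ) (hm : m = d / 2)
    (g : Fin m → A) (hg : ∀ i : Fin m, ∃ x ∈ D.gp ((i : ℕ) + 1), ρ x = g i)
    (hsurj : Function.Surjective (aeval g : MvPolynomial (Fin m) ℚ →ₐ[ℚ] A)) (n : ℕ) :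
    (n ≤ m → rel (RingHom.ker (aeval g : MvPolynomial (Fin m) ℚ →ₐ[ℚ] A)) n = 0) ∧
    (m < n → Module.finrank ℚ ↥(D.J d n) = Module.finrank ℚ ↥(D.GJ d n) +
      rel (RingHom.ker (aeval g : MvPolynomial (Fin m) ℚ →ₐ[ℚ] A)) n + 1) := by
  choose x hx hxg using hg
  have hx' : ∀ i : Fin m, x i ∈ D.gp (wt i) := hx
  have haev : ∀ p : MvPolynomial (Fin m) ℚ, ρ ((aeval x : MvPolynomial (Fin m) ℚ →ₐ[ℚ] G) p)
      = (aeval g : MvPolynomial (Fin m) ℚ →ₐ[ℚ] A) p := by
    intro p
    have : ρ.comp (aeval x : MvPolynomial (Fin m) ℚ →ₐ[ℚ] G) = aeval g := by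
      apply MvPolynomial.algHom_ext
      intro i
      simp [hxg]
    exact DFunLike.congr_fun this p
  -- the polynomials `p i`
  have hp : ∀ i : ℕ, ∃ p : MvPolynomial (Fin m) ℚ, IsWeightedHomogeneous wt p (i + 1) ∧
      ρ ((aeval x : MvPolynomial (Fin m) ℚ →ₐ[ℚ] G) p) = ρ (D.c i) := by
    intro i
    obtain ⟨p, hp⟩ := hsurj (ρ (D.c i))
    refine ⟨weightedHomogeneousComponent wt (i + 1) p,
      weightedHomogeneousComponent_isWeightedHomogeneous _ _, ?_⟩
    have h1 : ρ ((aeval x : MvPolynomial (Fin m) ℚ →ₐ[ℚ] G) p - D.c i) = 0 := by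
      rw [map_sub, haev, hp, sub_self]
    rw [← sub_eq_zero, ← map_sub]
    rw [hρ] at h1 ⊢
    intro s hs
    by_cases hj : N s = i + 1
    · have h2 := h1 s hs
      rw [map_sub, Pi.sub_apply] at h2 ⊢
      rw [e_aeval D wt x hx', hj] at h2
      exact h2
    · by_contra hne
      apply hj
      exact (D.gp (i + 1)).sub_mem (aeval_mem D wt x hx'
        (weightedHomogeneousComponent_isWeightedHomogeneous _ _)) (c_mem D i) s hne
  choose p hph hpc using hp
  -- the generators `h i`
  set h : ℕ → G := fun i => if hi : i < m then x ⟨i, hi⟩ else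
    D.c i - (aeval x : MvPolynomial (Fin m) ℚ →ₐ[ℚ] G) (p i) with hh
  have hlt : ∀ i : Fin m, h i = x i := fun i => by simp [hh]
  have hge : ∀ i, m ≤ i → h i = D.c i - (aeval x : MvPolynomial (Fin m) ℚ →ₐ[ℚ] G) (p i) :=
    fun i hi => by simp [hh, not_lt.2 hi]
  have hmem : ∀ i, h i ∈ D.gp (i + 1) := by
    intro i
    by_cases hi : i < m
    · have := hlt ⟨i, hi⟩
      simp only at this
      rw [this]
      exact hx ⟨i, hi⟩
    · rw [hge i (not_lt.1 hi)]
      exact (D.gp (i + 1)).sub_mem (c_mem D i) (aeval_mem D wt x hx' (hph i))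
  have hmem' : ∀ i, h i ∈ D.gp (wi i) := hmem
  have hren : ∀ q : MvPolynomial (Fin m) ℚ, (aeval h : MvPolynomial ℕ ℚ →ₐ[ℚ] G)
      (rename (fun i : Fin m => (i : ℕ)) q) = (aeval x : MvPolynomial (Fin m) ℚ →ₐ[ℚ] G) q := by
    intro q
    rw [aeval_rename]
    congr 1
    congr 1
    funext i
    exact hlt i
  have hcim : ∀ i, D.c i ∈ (weightedHomogeneousSubmodule ℚ wi (i + 1)).map
      (aeval h : MvPolynomial ℕ ℚ →ₐ[ℚ] G).toLinearMap := by
    intro i
    by_cases hi : i < m
    · refine ⟨rename (fun i : Fin m => (i : ℕ)) (p i), rename_hom (hph i), ?_⟩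
      rw [AlgHom.toLinearMap_apply, hren]
      have h1 : D.c i - (aeval x : MvPolynomial (Fin m) ℚ →ₐ[ℚ] G) (p i) = 0 := by
        apply small_zero D ρ d hρ (n := i + 1) (by omega)
        · exact (D.gp (i + 1)).sub_mem (c_mem D i) (aeval_mem D wt x hx' (hph i))
        · rw [map_sub, hpc, sub_self]
      exact (sub_eq_zero.1 h1).symm
    · refine ⟨X i + rename (fun i : Fin m => (i : ℕ)) (p i), ?_, ?_⟩
      · exact (isWeightedHomogeneous_X ℚ wi i).add (rename_hom (hph i))
      · rw [AlgHom.toLinearMap_apply, map_add, hren, aeval_X, hge i (not_lt.1 hi), sub_add_cancel]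
  have hB := hBIJ G D h hmem hcim
  have hgenJ : ∀ j z, z ∈ D.J d j ↔ z ∈ D.gp j ∧ ρ z = 0 := mem_J D ρ d hρ
  constructor
  · -- no relations of small degree
    intro hn
    have hbot : dg (RingHom.ker (aeval g : MvPolynomial (Fin m) ℚ →ₐ[ℚ] A)) n = ⊥ := by
      rw [eq_bot_iff]
      rintro q ⟨hq1, hq2⟩
      have h1 : (aeval g : MvPolynomial (Fin m) ℚ →ₐ[ℚ] A) q = 0 := hq1
      have h2 : (aeval x : MvPolynomial (Fin m) ℚ →ₐ[ℚ] G) q = 0 := by
        apply small_zero D ρ d hρ (n := n) (by omega) (aeval_mem D wt x hx' hq2)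
        rw [haev, h1]
      have h3 := (hB n).2 (rename (fun i : Fin m => (i : ℕ)) q) (rename_hom hq2) (by rw [hren, h2])
      have h4 : Function.Injective (fun i : Fin m => (i : ℕ)) := Fin.val_injective
      exact (rename_injective _ h4) (by rw [h3, map_zero])
    unfold rel
    have h5 : Subsingleton ↥(dg (RingHom.ker (aeval g : MvPolynomial (Fin m) ℚ →ₐ[ℚ] A)) n) := by
      rw [hbot]; infer_instance
    exact Module.finrank_zero_of_subsingleton
  · intro hn
    set Θ : MvPolynomial ℕ ℚ →ₐ[ℚ] A := ρ.comp (aeval h : MvPolynomial ℕ ℚ →ₐ[ℚ] G) with hΘ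
    have hΘ' : ∀ q, Θ q = ρ ((aeval h : MvPolynomial ℕ ℚ →ₐ[ℚ] G) q) := fun q => rfl
    obtain ⟨hfd, hfr⟩ := hPRES A m n hn Θ (aeval g) (fun i => by
        rw [hΘ', aeval_X, aeval_X, hlt, hxg]) (fun i hi => by
        rw [hΘ', aeval_X, hge i hi, map_sub, hpc, sub_self]) (fun q hq => by
        rw [hΘ'] at hq
        have h1 := rho_comp D ρ d hρ wi h hmem' q hq
        refine ⟨?_, h1⟩
        have h2 := h1 0
        rw [weightedHomogeneousComponent_zero (w := wi) q (fun i => Nat.succ_ne_zero i), aeval_C] at h2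
        exact rho_const D ρ d hρ _ h2)
    set f : MvPolynomial ℕ ℚ →ₗ[ℚ] G := (aeval h : MvPolynomial ℕ ℚ →ₐ[ℚ] G).toLinearMap with hf
    have hfa : ∀ q, f q = (aeval h : MvPolynomial ℕ ℚ →ₐ[ℚ] G) q := fun q => rfl
    -- general fact on dimensions
    have hdim : ∀ S : Submodule ℚ (MvPolynomial ℕ ℚ), S ≤ weightedHomogeneousSubmodule ℚ wi n →
        Module.finrank ℚ ↥(S.map f) = Module.finrank ℚ ↥S := by
      intro S hS
      have h1 : Function.Injective (f.domRestrict S) := by
        rw [← LinearMap.ker_eq_bot, LinearMap.ker_eq_bot']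
        intro q hq
        apply Subtype.ext
        exact (hB n).2 q.1 (hS q.2) hq
      rw [← LinearMap.range_domRestrict]
      exact LinearMap.finrank_range_of_inj h1
    have hKJ : ∀ j, (KK Θ j).map f = D.J d j := by
      intro j
      apply le_antisymm
      · rintro _ ⟨q, ⟨hq1, hq2⟩, rfl⟩
        rw [hgenJ]
        exact ⟨aeval_mem D wi h hmem' hq2, hq1⟩
      · intro z hz
        rw [hgenJ] at hz
        have h1 := hz.1
        rw [← (hB j).1] at h1
        obtain ⟨q, hq, rfl⟩ := h1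
        exact ⟨q, ⟨hz.2, hq⟩, rfl⟩
    have hQK : (QK Θ n).map f = D.GJ d n := by
      apply le_antisymm
      · unfold QK FHD.GJ
        rw [Submodule.map_span, Submodule.span_le]
        rintro _ ⟨z, ⟨i, y, hi, hy, rfl⟩, rfl⟩
        apply Submodule.subset_span
        refine ⟨i + 1, h i, f y, by omega, by omega, hmem i, ?_, ?_⟩
        · rw [show n - (i + 1) = n - 1 - i by omega, ← hKJ]
          exact ⟨y, hy, rfl⟩
        · rw [hfa, map_mul, aeval_X]
          rfl
      · unfold FHD.GJ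
        rw [Submodule.span_le]
        rintro _ ⟨j, u, v, hj1, hjn, hu, hv, rfl⟩
        rw [← (hB j).1] at hu
        obtain ⟨q, hq, rfl⟩ := hu
        rw [← hKJ] at hv
        obtain ⟨r, hr, rfl⟩ := hv
        have h1 := pos_decomp j hj1 q hq
        show f q * f r ∈ (QK Θ n).map f
        have h2 : f q * f r = f (q * r) := by rw [hfa, hfa, hfa, map_mul]
        rw [h2]
        apply Submodule.mem_map_of_mem
        -- `q * r ∈ QK Θ n`
        have h3 : ∀ q ∈ Submodule.span ℚ {z | ∃ (i : ℕ) (y : MvPolynomial ℕ ℚ), i < j ∧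
            IsWeightedHomogeneous wi y (j - 1 - i) ∧ z = X i * y}, q * r ∈ QK Θ n := by
          intro q hq
          induction hq using Submodule.span_induction with
          | mem z hz =>
            obtain ⟨i, y, hi, hy, rfl⟩ := hz
            apply Submodule.subset_span
            refine ⟨i, y * r, by omega, ⟨?_, ?_⟩, by ring⟩
            · show Θ (y * r) = 0
              have : Θ r = 0 := hr.1
              rw [map_mul, this, mul_zero]
            · show IsWeightedHomogeneous wi (y * r) (n - 1 - i)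
              have h4 : IsWeightedHomogeneous wi r (n - j) := hr.2
              have h5 := hy.mul h4
              rwa [show j - 1 - i + (n - j) = n - 1 - i by omega] at h5
          | zero => rw [zero_mul]; exact Submodule.zero_mem _
          | add a b _ _ ha hb => rw [add_mul]; exact Submodule.add_mem _ ha hb
          | smul c a _ ha => rw [smul_mul_assoc]; exact Submodule.smul_mem _ _ ha
        exact h3 q h1
    have hK1 : Module.finrank ℚ ↥(D.J d n) = Module.finrank ℚ ↥(KK Θ n) := by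
      rw [← hKJ]
      exact hdim _ inf_le_right
    have hQ1 : Module.finrank ℚ ↥(D.GJ d n) = Module.finrank ℚ ↥(QK Θ n) := by
      rw [← hQK]
      apply hdim
      unfold QK
      rw [Submodule.span_le]
      rintro _ ⟨i, y, hi, hy, rfl⟩
      show IsWeightedHomogeneous wi (X i * y) n
      have h4 : IsWeightedHomogeneous wi y (n - 1 - i) := hy.2
      have h5 := (isWeightedHomogeneous_X ℚ wi i).mul h4
      have h6 : wi i + (n - 1 - i) = n := by
        unfold wi
        omega
      rwa [h6] at h5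
    rw [hK1, hQ1, hfr]

theorem rc : S_BIJ → S_PRES2 → S_RC := by
  intro hBIJ hPRES G _ _ D A _ _ ρ d hρ g hg hsurj n
  exact rc_aux hBIJ hPRES G D A ρ d hρ _ rfl g hg hsurj n

end Pool.Agent.R392.FH
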